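import Mathlib
import Pool.Agent.H389R3.LR1

/-!
# The weighted energy inequality with moments
-/

set_option autoImplicit false

open Complex Finset

namespace Pool.Agent.Y145.LM

open Pool.Agent.H388SL

/-- positive definiteness of the kernel, with weights -/
lemma posdefW {ι : Type*} (s : Finset ι) (b : ι → ℂ) (a : ι → ℝ)
    (hb : ∀ i ∈ s, ‖b i‖ ≤ 1) {t : ℝ} (ht0 : 0 ≤ t) (ht1 : t < 1) (L : ℕ) :
    ∑ i ∈ s, ∑ j ∈ s, a i * a j * Real.log ‖1 - (t : ℂ) * (b i * starRingEnd ℂ (b j))‖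
      ≤ - ∑ k ∈ Finset.range L, t ^ k / k * ‖∑ i ∈ s, (a i : ℂ) * b i ^ k‖ ^ 2 := by
  have hnorm : ∀ i ∈ s, ∀ j ∈ s, ‖(t : ℂ) * (b i * starRingEnd ℂ (b j))‖ < 1 := by
    intro i hi j hj
    rw [norm_mul, norm_mul, RCLike.norm_conj, Complex.norm_real, Real.norm_of_nonneg ht0]
    have h1 : ‖b i‖ * ‖b j‖ ≤ 1 := mul_le_one₀ (hb i hi) (norm_nonneg _) (hb j hj)
    nlinarith [norm_nonneg (b i), norm_nonneg (b j), mul_nonneg (norm_nonneg (b i)) (norm_nonneg (b j))]
  have hsum : ∀ i ∈ s, ∀ j ∈ s, HasSum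
      (fun n : ℕ => a i * a j * (((t : ℂ) * (b i * starRingEnd ℂ (b j))) ^ n / n).re)
      (- (a i * a j * Real.log ‖1 - (t : ℂ) * (b i * starRingEnd ℂ (b j))‖)) := by
    intro i hi j hj
    have h := Complex.hasSum_re (Complex.hasSum_taylorSeries_neg_log (hnorm i hi j hj))
    rw [Complex.neg_re, Complex.log_re] at h
    have h' := h.mul_left (a i * a j)
    rwa [mul_neg] at h'
  have h2 : HasSum (fun n : ℕ => ∑ i ∈ s, ∑ j ∈ s,
        a i * a j * (((t : ℂ) * (b i * starRingEnd ℂ (b j))) ^ n / n).re)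
      (∑ i ∈ s, ∑ j ∈ s, (- (a i * a j * Real.log ‖1 - (t : ℂ) * (b i * starRingEnd ℂ (b j))‖))) :=
    hasSum_sum fun i hi => hasSum_sum fun j hj => hsum i hi j hj
  have hterm : ∀ n : ℕ, (∑ i ∈ s, ∑ j ∈ s,
        a i * a j * (((t : ℂ) * (b i * starRingEnd ℂ (b j))) ^ n / n).re)
      = t ^ n / n * ‖∑ i ∈ s, (a i : ℂ) * b i ^ n‖ ^ 2 := by
    intro n
    have e1 : (∑ i ∈ s, ∑ j ∈ s, a i * a j * (((t : ℂ) * (b i * starRingEnd ℂ (b j))) ^ n / n).re)
        = (∑ i ∈ s, ∑ j ∈ s, ((a i : ℂ) * (a j : ℂ)) *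
            (((t : ℂ) * (b i * starRingEnd ℂ (b j))) ^ n / n)).re := by
      rw [Complex.re_sum]
      refine Finset.sum_congr rfl fun i _ => ?_
      rw [Complex.re_sum]
      refine Finset.sum_congr rfl fun j _ => ?_
      rw [← Complex.ofReal_mul, Complex.re_ofReal_mul]
    have e2 : (∑ i ∈ s, ∑ j ∈ s, ((a i : ℂ) * (a j : ℂ)) *
            (((t : ℂ) * (b i * starRingEnd ℂ (b j))) ^ n / n))
        = ((t ^ n / n : ℝ) : ℂ) * ((∑ i ∈ s, (a i : ℂ) * b i ^ n) *
            starRingEnd ℂ (∑ i ∈ s, (a i : ℂ) * b i ^ n)) := by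
      rw [map_sum, Finset.sum_mul_sum, Finset.mul_sum]
      refine Finset.sum_congr rfl fun i _ => ?_
      rw [Finset.mul_sum]
      refine Finset.sum_congr rfl fun j _ => ?_
      rw [map_mul, map_pow, Complex.conj_ofReal]
      push_cast
      ring
    rw [e1, e2, Complex.mul_conj, Complex.normSq_eq_norm_sq, ← Complex.ofReal_mul, Complex.ofReal_re]
  have h3 := h2
  simp_rw [hterm] at h3
  have h4 : ∑ k ∈ Finset.range L, t ^ k / k * ‖∑ i ∈ s, (a i : ℂ) * b i ^ k‖ ^ 2 ≤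
      ∑ i ∈ s, ∑ j ∈ s, (- (a i * a j * Real.log ‖1 - (t : ℂ) * (b i * starRingEnd ℂ (b j))‖)) := by
    refine sum_le_hasSum _ ?_ h3
    intro n _
    positivity
  have e5 : ∑ i ∈ s, ∑ j ∈ s,
      (- (a i * a j * Real.log ‖1 - (t : ℂ) * (b i * starRingEnd ℂ (b j))‖))
      = - ∑ i ∈ s, ∑ j ∈ s, a i * a j * Real.log ‖1 - (t : ℂ) * (b i * starRingEnd ℂ (b j))‖ := by
    rw [← Finset.sum_neg_distrib]
    refine Finset.sum_congr rfl fun i _ => ?_
    rw [← Finset.sum_neg_distrib]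
  rw [e5] at h4
  linarith

/-- the energy inequality with moments and weights -/
theorem energyW (s : Finset ℂ) (a : ℂ → ℝ) (ha : ∀ z ∈ s, 0 ≤ a z) {t : ℝ} (ht0 : 0 ≤ t)
    (ht1 : t < 1) (L : ℕ) :
    ∑ z ∈ s, ∑ w ∈ s, a z * a w * (if z = w then 0 else Real.log ‖z - w‖)
        + ∑ k ∈ Finset.range L, t ^ k / k * ‖∑ z ∈ s, (a z : ℂ) * refl z ^ k‖ ^ 2
      ≤ 2 * (∑ z ∈ s, a z) * (∑ z ∈ s, a z * Real.log (max 1 ‖z‖))
        + (∑ z ∈ s, a z) ^ 2 * Real.log (2 / (1 + t))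
        + (∑ z ∈ s, a z ^ 2) * Real.log (1 / (1 - t)) := by
  have hL : 0 ≤ Real.log (2 / (1 + t)) := by
    apply Real.log_nonneg
    rw [le_div_iff₀ (by linarith)]; linarith
  -- pointwise bound
  have hpt : ∀ i ∈ s, ∀ j ∈ s, (if i = j then (0:ℝ) else Real.log ‖i - j‖) ≤
      ((Real.log (max 1 ‖i‖) + Real.log (max 1 ‖j‖) + Real.log (2 / (1 + t)))
        + Real.log ‖1 - (t : ℂ) * (refl i * starRingEnd ℂ (refl j))‖)
        + (if i = j then Real.log (1 / (1 - t)) else 0) := by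
    intro i hi j hj
    have hLi : 0 ≤ Real.log (max 1 ‖i‖) := Real.log_nonneg (le_max_left _ _)
    have hLj : 0 ≤ Real.log (max 1 ‖j‖) := Real.log_nonneg (le_max_left _ _)
    by_cases hij : i = j
    · subst hij
      rw [if_pos rfl, if_pos rfl]
      have h1 : 1 - t ≤ ‖1 - (t : ℂ) * (refl i * starRingEnd ℂ (refl i))‖ := by
        have h2 : ‖(t : ℂ) * (refl i * starRingEnd ℂ (refl i))‖ ≤ t := by
          rw [norm_mul, norm_mul, RCLike.norm_conj, Complex.norm_real, Real.norm_of_nonneg ht0]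
          have h3 : ‖refl i‖ * ‖refl i‖ ≤ 1 :=
            mul_le_one₀ (norm_refl_le _) (norm_nonneg _) (norm_refl_le _)
          nlinarith
        have h4 := norm_sub_norm_le (1:ℂ) ((t : ℂ) * (refl i * starRingEnd ℂ (refl i)))
        rw [norm_one] at h4
        linarith
      have h5 : Real.log (1 - t) ≤ Real.log ‖1 - (t : ℂ) * (refl i * starRingEnd ℂ (refl i))‖ :=
        Real.log_le_log (by linarith) h1
      have h6 : Real.log (1 / (1 - t)) = - Real.log (1 - t) := by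
        rw [one_div, Real.log_inv]
      rw [h6]
      linarith
    · rw [if_neg hij, if_neg hij, add_zero]
      have hne : i - j ≠ 0 := sub_ne_zero.mpr hij
      have hb : ‖refl i * starRingEnd ℂ (refl j)‖ ≤ 1 := by
        rw [norm_mul, RCLike.norm_conj]
        exact mul_le_one₀ (norm_refl_le _) (norm_nonneg _) (norm_refl_le _)
      have h1 := pair_le i j
      have h2 := one_sub_le ht0 ht1 _ hb
      have hmi : 0 < max 1 ‖i‖ := lt_of_lt_of_le one_pos (le_max_left _ _)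
      have hmj : 0 < max 1 ‖j‖ := lt_of_lt_of_le one_pos (le_max_left _ _)
      have h3 : ‖i - j‖ ≤ max 1 ‖i‖ * max 1 ‖j‖ *
          (2 / (1 + t) * ‖1 - (t : ℂ) * (refl i * starRingEnd ℂ (refl j))‖) :=
        h1.trans (mul_le_mul_of_nonneg_left h2 (by positivity))
      have hpos : 0 < ‖i - j‖ := norm_pos_iff.mpr hne
      have h2t : 0 < 2 / (1 + t) := by apply div_pos <;> linarith
      have h4 : 0 < ‖1 - (t : ℂ) * (refl i * starRingEnd ℂ (refl j))‖ := by
        rcases (norm_nonneg (1 - (t : ℂ) * (refl i * starRingEnd ℂ (refl j)))).lt_or_eq with h | h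
        · exact h
        · rw [← h] at h3
          simp at h3
          exact absurd h3 hne
      calc Real.log ‖i - j‖ ≤ Real.log (max 1 ‖i‖ * max 1 ‖j‖ *
          (2 / (1 + t) * ‖1 - (t : ℂ) * (refl i * starRingEnd ℂ (refl j))‖)) :=
            Real.log_le_log hpos h3
        _ = _ := by
          rw [Real.log_mul (by positivity) (by positivity), Real.log_mul (by positivity) (by positivity),
            Real.log_mul (by positivity) (by positivity)]
          ring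
  have hsum := Finset.sum_le_sum fun i hi => Finset.sum_le_sum fun j hj =>
    mul_le_mul_of_nonneg_left (hpt i hi j hj) (mul_nonneg (ha i hi) (ha j hj))
  have hpd := posdefW s (fun i => refl i) a (fun i _ => norm_refl_le _) ht0 ht1 L
  have e1 : ∑ i ∈ s, ∑ j ∈ s, a i * a j * (if i = j then Real.log (1 / (1 - t)) else 0)
      = (∑ z ∈ s, a z ^ 2) * Real.log (1 / (1 - t)) := by
    rw [Finset.sum_mul]
    refine Finset.sum_congr rfl fun i hi => ?_
    rw [Finset.sum_eq_single_of_mem i hi (fun j _ hj => by rw [if_neg (Ne.symm hj), mul_zero]),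
      if_pos rfl]
    ring
  have e2 : ∑ i ∈ s, ∑ j ∈ s, a i * a j *
      (Real.log (max 1 ‖i‖) + Real.log (max 1 ‖j‖) + Real.log (2 / (1 + t)))
      = 2 * (∑ z ∈ s, a z) * (∑ z ∈ s, a z * Real.log (max 1 ‖z‖))
        + (∑ z ∈ s, a z) ^ 2 * Real.log (2 / (1 + t)) := by
    have h1 : ∑ i ∈ s, ∑ j ∈ s, a i * a j *
      (Real.log (max 1 ‖i‖) + Real.log (max 1 ‖j‖) + Real.log (2 / (1 + t))) =
      ∑ i ∈ s, ∑ j ∈ s, (a i * Real.log (max 1 ‖i‖)) * a j
      + ∑ i ∈ s, ∑ j ∈ s, a i * (a j * Real.log (max 1 ‖j‖))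
      + (∑ i ∈ s, ∑ j ∈ s, a i * a j) * Real.log (2 / (1 + t)) := by
      rw [Finset.sum_mul, ← Finset.sum_add_distrib, ← Finset.sum_add_distrib]
      refine Finset.sum_congr rfl fun i _ => ?_
      rw [Finset.sum_mul, ← Finset.sum_add_distrib, ← Finset.sum_add_distrib]
      refine Finset.sum_congr rfl fun j _ => ?_
      ring
    rw [h1, ← Finset.sum_mul_sum, ← Finset.sum_mul_sum, ← Finset.sum_mul_sum]
    ring
  have e3 : ∑ i ∈ s, ∑ j ∈ s, a i * a j *
      (((Real.log (max 1 ‖i‖) + Real.log (max 1 ‖j‖) + Real.log (2 / (1 + t)))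
        + Real.log ‖1 - (t : ℂ) * (refl i * starRingEnd ℂ (refl j))‖)
        + (if i = j then Real.log (1 / (1 - t)) else 0)) =
      ∑ i ∈ s, ∑ j ∈ s, a i * a j *
      (Real.log (max 1 ‖i‖) + Real.log (max 1 ‖j‖) + Real.log (2 / (1 + t)))
      + ∑ i ∈ s, ∑ j ∈ s, a i * a j * Real.log ‖1 - (t : ℂ) * (refl i * starRingEnd ℂ (refl j))‖
      + ∑ i ∈ s, ∑ j ∈ s, a i * a j * (if i = j then Real.log (1 / (1 - t)) else 0) := by
    rw [← Finset.sum_add_distrib, ← Finset.sum_add_distrib]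
    refine Finset.sum_congr rfl fun i _ => ?_
    rw [← Finset.sum_add_distrib, ← Finset.sum_add_distrib]
    refine Finset.sum_congr rfl fun j _ => ?_
    ring
  rw [e3, e1, e2] at hsum
  linarith

end Pool.Agent.Y145.LM
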