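import Mathlib
import Pool.Agent.H389R3.LR4
import Pool.Agent.Y145.LM.A

/-!
# The weighted energy inequality for the conjugates of powers of an algebraic integer
-/

set_option autoImplicit false

open Finset Polynomial Module

namespace Pool.Agent.Y145.LM

open Pool.Agent.H388SL Pool.Agent.H389R3.LR

theorem one_le_res (P Q : ℤ[X]) (Z W : Finset ℂ)
    (hP : P.map (Int.castRingHom ℂ) = ∏ z ∈ Z, (X - C z))
    (hQ : Q.map (Int.castRingHom ℂ) = ∏ w ∈ W, (X - C w)) (hd : Disjoint Z W) :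
    1 ≤ ∏ z ∈ Z, ∏ w ∈ W, ‖z - w‖ := by
  set φ := Int.castRingHom ℂ with hφ
  have hinj : Function.Injective φ := RingHom.injective_int φ
  set F := P.map φ with hF
  have hmonic : F.Monic := by rw [hP]; exact monic_prod_of_monic _ _ fun z _ => monic_X_sub_C z
  have hroots : F.roots = Z.val := by rw [hP]; exact roots_prod_X_sub_C Z
  have h1 := resultant_map_map P Q P.natDegree Q.natDegree φ
  have h2 := resultant_eq_prod_eval F (Q.map φ) Q.natDegree natDegree_map_le (IsAlgClosed.splits F)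
  rw [hroots, hmonic.leadingCoeff, one_pow, one_mul] at h2
  have h3 : F.natDegree = P.natDegree := natDegree_map_eq_of_injective hinj P
  rw [h3] at h2
  rw [← hF, h2] at h1
  have h4 : (Z.val.map (Q.map φ).eval).prod = ∏ z ∈ Z, ∏ w ∈ W, (z - w) := by
    change ∏ z ∈ Z, (Q.map φ).eval z = _
    refine Finset.prod_congr rfl fun z hz => ?_
    rw [hQ, eval_prod]
    simp
  rw [h4] at h1
  set r : ℤ := resultant P Q P.natDegree Q.natDegree with hr
  have h5 : ∏ z ∈ Z, ∏ w ∈ W, ‖z - w‖ = |(r : ℝ)| := by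
    have h6 := congrArg norm h1
    rw [norm_prod] at h6
    simp_rw [norm_prod] at h6
    rw [h6]
    rw [hφ, eq_intCast, Complex.norm_intCast]
  have h6 : 0 < ∏ z ∈ Z, ∏ w ∈ W, ‖z - w‖ := by
    refine Finset.prod_pos fun z hz => Finset.prod_pos fun w hw => ?_
    rw [norm_pos_iff]
    refine sub_ne_zero.mpr ?_
    rintro rfl
    exact (Finset.disjoint_left.mp hd hz) hw
  rw [h5] at h6 ⊢
  have h7 : r ≠ 0 := by
    rintro h8
    rw [h8] at h6
    simp at h6
  exact_mod_cast Int.one_le_abs h7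

variable {K : Type*} [Field K] [NumberField K]

lemma res_nonneg {β γ : K} (hβ : IsIntegral ℤ β) (hγ : IsIntegral ℤ γ)
    (hd : Disjoint (conjSet β) (conjSet γ)) :
    0 ≤ ∑ z ∈ conjSet β, ∑ w ∈ conjSet γ, (if z = w then 0 else Real.log ‖z - w‖) := by
  have h := one_le_res _ _ _ _ (minpolyZ_map hβ) (minpolyZ_map hγ) hd
  have hne : ∀ z ∈ conjSet β, ∀ w ∈ conjSet γ, z ≠ w := by
    rintro z hz w hw rfl
    exact (Finset.disjoint_left.mp hd hz) hw
  have h1 : Real.log (∏ z ∈ conjSet β, ∏ w ∈ conjSet γ, ‖z - w‖) =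
      ∑ z ∈ conjSet β, ∑ w ∈ conjSet γ, (if z = w then 0 else Real.log ‖z - w‖) := by
    have hne' : ∀ z ∈ conjSet β, ∀ w ∈ conjSet γ, ‖z - w‖ ≠ 0 := fun z hz w hw =>
      norm_ne_zero_iff.mpr (sub_ne_zero.mpr (hne z hz w hw))
    rw [Real.log_prod fun z hz => Finset.prod_ne_zero_iff.mpr (hne' z hz)]
    refine Finset.sum_congr rfl fun z hz => ?_
    rw [Real.log_prod (hne' z hz)]
    refine Finset.sum_congr rfl fun w hw => ?_
    rw [if_neg (hne z hz w hw)]
  rw [← h1]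
  exact Real.log_nonneg h

lemma disc_nonneg {β : K} (hβ : IsIntegral ℤ β) :
    0 ≤ ∑ z ∈ conjSet β, ∑ w ∈ conjSet β, (if z = w then 0 else Real.log ‖z - w‖) := by
  classical
  have hd := one_le_disc_of _ _ (minpolyZ_map hβ)
  set Z := conjSet β with hZ
  have h1 : Real.log (∏ z ∈ Z, ∏ w ∈ Z.erase z, ‖z - w‖) =
      ∑ z ∈ Z, ∑ w ∈ Z, (if z = w then 0 else Real.log ‖z - w‖) := by
    have hne : ∀ z ∈ Z, ∀ w ∈ Z.erase z, ‖z - w‖ ≠ 0 := by
      intro z _ w hw
      rw [norm_ne_zero_iff]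
      exact sub_ne_zero.mpr (Finset.ne_of_mem_erase hw).symm
    rw [Real.log_prod fun z hz => Finset.prod_ne_zero_iff.mpr (hne z hz)]
    refine Finset.sum_congr rfl fun z hz => ?_
    rw [Real.log_prod (hne z hz), ← Finset.add_sum_erase Z _ hz, if_pos rfl, zero_add]
    refine Finset.sum_congr rfl fun w hw => ?_
    rw [if_neg (Finset.ne_of_mem_erase hw).symm]
  rw [← h1]
  exact Real.log_nonneg hd

/-- the weighted inequality for the conjugates of the powers `α ^ m`, `m ∈ J`, with weights `a m` -/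
theorem ineqW {α : K} (hα : IsIntegral ℤ α) (h0 : α ≠ 0)
    (hroot : ∀ n : ℕ, 0 < n → α ^ n ≠ 1) (J : Finset ℕ) (M : ℕ) (hJ : ∀ m ∈ J, m ≤ M)
    (a : ℕ → ℝ) (ha : ∀ m, 0 ≤ a m) {t : ℝ} (ht0 : 0 ≤ t) (ht1 : t < 1) (L : ℕ) :
    ∑ k ∈ Finset.range L, t ^ k / k *
        ‖∑ m ∈ J, (a m : ℂ) * ∑ z ∈ conjSet (α ^ m), refl z ^ k‖ ^ 2 ≤
      2 * (finrank ℚ K * ∑ m ∈ J, a m) * (M * lam α * ∑ m ∈ J, a m)
        + (finrank ℚ K * ∑ m ∈ J, a m) ^ 2 * Real.log (2 / (1 + t))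
        + (finrank ℚ K * ∑ m ∈ J, a m ^ 2) * Real.log (1 / (1 - t)) := by
  classical
  set n := finrank ℚ K with hn
  have hdisj : Set.PairwiseDisjoint (↑J) (fun m => conjSet (α ^ m)) := by
    intro m _ l _ hml
    exact conj_disjoint hα h0 hroot hml
  set Z : Finset ℂ := J.biUnion fun m => conjSet (α ^ m) with hZ
  -- the weight of a point
  set b : ℂ → ℝ := fun z => ∑ m ∈ J, if z ∈ conjSet (α ^ m) then a m else 0 with hb
  have hbm : ∀ m ∈ J, ∀ z ∈ conjSet (α ^ m), b z = a m := by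
    intro m hm z hz
    rw [hb]
    dsimp only
    rw [Finset.sum_eq_single_of_mem m hm, if_pos hz]
    intro l hl hlm
    rw [if_neg]
    intro h
    exact (Finset.disjoint_left.mp (conj_disjoint hα h0 hroot hlm) h) hz
  have hb0 : ∀ z ∈ Z, 0 ≤ b z := fun z _ => Finset.sum_nonneg fun m _ => by
    split_ifs
    · exact ha m
    · exact le_rfl
  have hmain := energyW Z b hb0 ht0 ht1 L
  -- sums over `Z`
  have hS : ∀ F : ℂ → ℝ → ℝ, ∑ z ∈ Z, F z (b z) = ∑ m ∈ J, ∑ z ∈ conjSet (α ^ m), F z (a m) := by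
    intro F
    rw [hZ, Finset.sum_biUnion hdisj]
    refine Finset.sum_congr rfl fun m hm => Finset.sum_congr rfl fun z hz => ?_
    rw [hbm m hm z hz]
  have hSC : ∀ F : ℂ → ℝ → ℂ, ∑ z ∈ Z, F z (b z) = ∑ m ∈ J, ∑ z ∈ conjSet (α ^ m), F z (a m) := by
    intro F
    rw [hZ, Finset.sum_biUnion hdisj]
    refine Finset.sum_congr rfl fun m hm => Finset.sum_congr rfl fun z hz => ?_
    rw [hbm m hm z hz]
  have h1 : 0 ≤ ∑ z ∈ Z, ∑ w ∈ Z, b z * b w * (if z = w then 0 else Real.log ‖z - w‖) := by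
    have e : ∑ z ∈ Z, ∑ w ∈ Z, b z * b w * (if z = w then 0 else Real.log ‖z - w‖) =
        ∑ m ∈ J, ∑ l ∈ J, a m * a l * ∑ z ∈ conjSet (α ^ m), ∑ w ∈ conjSet (α ^ l),
          (if z = w then 0 else Real.log ‖z - w‖) := by
      rw [hS (fun z x => ∑ w ∈ Z, x * b w * (if z = w then 0 else Real.log ‖z - w‖))]
      refine Finset.sum_congr rfl fun m hm => ?_
      have e1 : ∀ z : ℂ, ∑ w ∈ Z, a m * b w * (if z = w then 0 else Real.log ‖z - w‖) =
          ∑ l ∈ J, ∑ w ∈ conjSet (α ^ l), a m * a l * (if z = w then 0 else Real.log ‖z - w‖) :=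
        fun z => hS (fun w x => a m * x * (if z = w then 0 else Real.log ‖z - w‖))
      rw [Finset.sum_congr rfl fun z _ => e1 z, Finset.sum_comm]
      refine Finset.sum_congr rfl fun l hl => ?_
      rw [Finset.mul_sum]
      refine Finset.sum_congr rfl fun z _ => ?_
      rw [Finset.mul_sum]
    rw [e]
    refine Finset.sum_nonneg fun m hm => Finset.sum_nonneg fun l hl => ?_
    refine mul_nonneg (mul_nonneg (ha m) (ha l)) ?_
    by_cases hml : m = l
    · subst hml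
      exact disc_nonneg (hα.pow m)
    · exact res_nonneg (hα.pow m) (hα.pow l) (conj_disjoint hα h0 hroot hml)
  have h2 : ∀ k : ℕ, ∑ z ∈ Z, (b z : ℂ) * refl z ^ k =
      ∑ m ∈ J, (a m : ℂ) * ∑ z ∈ conjSet (α ^ m), refl z ^ k := by
    intro k
    rw [hSC (fun z x => (x : ℂ) * refl z ^ k)]
    refine Finset.sum_congr rfl fun m _ => ?_
    rw [Finset.mul_sum]
  have hcard : ∀ m, ((conjSet (α ^ m)).card : ℝ) ≤ n := fun m => by
    exact_mod_cast card_conjSet_le (α ^ m)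
  have h3 : ∑ z ∈ Z, b z ≤ n * ∑ m ∈ J, a m := by
    rw [hS (fun _ x => x), Finset.mul_sum]
    refine Finset.sum_le_sum fun m _ => ?_
    rw [Finset.sum_const, nsmul_eq_mul]
    exact mul_le_mul_of_nonneg_right (hcard m) (ha m)
  have h3' : 0 ≤ ∑ z ∈ Z, b z := Finset.sum_nonneg hb0
  have h4 : ∑ z ∈ Z, b z ^ 2 ≤ n * ∑ m ∈ J, a m ^ 2 := by
    rw [hS (fun _ x => x ^ 2), Finset.mul_sum]
    refine Finset.sum_le_sum fun m _ => ?_
    rw [Finset.sum_const, nsmul_eq_mul]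
    exact mul_le_mul_of_nonneg_right (hcard m) (sq_nonneg _)
  have hl0 := lam_nonneg α
  have h5 : ∑ z ∈ Z, b z * Real.log (max 1 ‖z‖) ≤ M * lam α * ∑ m ∈ J, a m := by
    rw [hS (fun z x => x * Real.log (max 1 ‖z‖)), Finset.mul_sum]
    refine Finset.sum_le_sum fun m hm => ?_
    rw [← Finset.mul_sum]
    have h6 : ∑ z ∈ conjSet (α ^ m), Real.log (max 1 ‖z‖) ≤ M * lam α := by
      refine (sum_conjSet_le (α ^ m) _ fun z => Real.log_nonneg (le_max_left _ _)).trans ?_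
      have h2 := lam_pow α m
      unfold lam at h2
      rw [h2]
      have h3 : (m:ℝ) ≤ M := by exact_mod_cast hJ m hm
      exact mul_le_mul_of_nonneg_right h3 (lam_nonneg α)
    calc a m * ∑ z ∈ conjSet (α ^ m), Real.log (max 1 ‖z‖) ≤ a m * (M * lam α) :=
          mul_le_mul_of_nonneg_left h6 (ha m)
      _ = _ := by ring
  have h5' : 0 ≤ ∑ z ∈ Z, b z * Real.log (max 1 ‖z‖) :=
    Finset.sum_nonneg fun z hz => mul_nonneg (hb0 z hz) (Real.log_nonneg (le_max_left _ _))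
  have hL : 0 ≤ Real.log (2 / (1 + t)) := by
    apply Real.log_nonneg
    rw [le_div_iff₀ (by linarith)]; linarith
  have hL' : 0 ≤ Real.log (1 / (1 - t)) := by
    apply Real.log_nonneg
    rw [le_div_iff₀ (by linarith)]; linarith
  have g1 : 2 * (∑ z ∈ Z, b z) * (∑ z ∈ Z, b z * Real.log (max 1 ‖z‖)) ≤
      2 * (n * ∑ m ∈ J, a m) * (M * lam α * ∑ m ∈ J, a m) :=
    mul_le_mul (mul_le_mul_of_nonneg_left h3 (by norm_num)) h5 h5'
      (mul_nonneg (by norm_num) (h3'.trans h3))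
  have g2 : (∑ z ∈ Z, b z) ^ 2 * Real.log (2 / (1 + t)) ≤
      (n * ∑ m ∈ J, a m) ^ 2 * Real.log (2 / (1 + t)) :=
    mul_le_mul_of_nonneg_right (pow_le_pow_left₀ h3' h3 2) hL
  have g3 : (∑ z ∈ Z, b z ^ 2) * Real.log (1 / (1 - t)) ≤
      (n * ∑ m ∈ J, a m ^ 2) * Real.log (1 / (1 - t)) :=
    mul_le_mul_of_nonneg_right h4 hL'
  simp_rw [h2] at hmain
  linarith

end Pool.Agent.Y145.LM
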