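import Mathlib
import Pool.Agent.Y145.LM.B

/-!
# The squares of the power sums
-/

set_option autoImplicit false

open Finset Polynomial Module

namespace Pool.Agent.Y145.LM

open Pool.Agent.H388SL Pool.Agent.H389R3.LR

lemma norm_sub_refl_le (z : ℂ) : ‖z - refl z‖ ≤ 2 * (max 1 ‖z‖ - 1) := by
  unfold Pool.Agent.H388SL.refl
  split_ifs with h
  · rw [sub_self, norm_zero, max_eq_left h]; norm_num
  · push Not at h
    rw [max_eq_right h.le]
    have hz : z ≠ 0 := by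
      rintro rfl
      rw [norm_zero] at h
      linarith
    have hz' : (starRingEnd ℂ) z ≠ 0 := by
      rw [Ne, map_eq_zero]; exact hz
    have e : z - (starRingEnd ℂ z)⁻¹ = (((‖z‖ ^ 2 - 1 : ℝ)) : ℂ) * (starRingEnd ℂ z)⁻¹ := by
      field_simp
      rw [Complex.mul_conj, Complex.normSq_eq_norm_sq]
      push_cast
      ring
    rw [e, norm_mul, norm_inv, RCLike.norm_conj, Complex.norm_real, Real.norm_of_nonneg (by nlinarith),
      ← div_eq_mul_inv, div_le_iff₀ (by linarith)]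
    nlinarith [sq_nonneg (‖z‖ - 1)]

lemma sum_le_prod_sub_one (Z : Finset ℂ) (x : ℂ → ℝ) (hx : ∀ z, 0 ≤ x z) :
    1 + ∑ z ∈ Z, x z ≤ ∏ z ∈ Z, (1 + x z) := by
  classical
  induction Z using Finset.induction_on with
  | empty => simp
  | insert z Z hz ih =>
    rw [Finset.sum_insert hz, Finset.prod_insert hz]
    have h1 : 0 ≤ ∑ z ∈ Z, x z := Finset.sum_nonneg fun z _ => hx z
    have h2 := mul_le_mul_of_nonneg_left ih (add_nonneg zero_le_one (hx z))
    nlinarith [mul_nonneg (hx z) h1]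

variable {K : Type*} [Field K] [NumberField K]

lemma diff_le (α : K) (m : ℕ) (hl : lam α ≤ Real.log 2) :
    ‖∑ z ∈ conjSet (α ^ m), z - ∑ z ∈ conjSet (α ^ m), refl z‖ ≤ 2 * 2 ^ m := by
  rw [← Finset.sum_sub_distrib]
  have h1 : ∏ z ∈ conjSet (α ^ m), max 1 ‖z‖ ≤ 2 ^ m := by
    have h2 : Real.log (∏ z ∈ conjSet (α ^ m), max 1 ‖z‖) ≤ m * Real.log 2 := by
      rw [Real.log_prod fun z _ => (lt_of_lt_of_le one_pos (le_max_left _ _)).ne']
      refine (sum_conjSet_le (α ^ m) _ fun z => Real.log_nonneg (le_max_left _ _)).trans ?_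
      have h2 := lam_pow α m
      unfold lam at h2
      rw [h2]
      exact mul_le_mul_of_nonneg_left hl (Nat.cast_nonneg m)
    rw [← Real.log_pow] at h2
    exact (Real.log_le_log_iff (Finset.prod_pos fun z _ => lt_of_lt_of_le one_pos (le_max_left _ _))
      (by positivity)).mp h2
  have h3 := sum_le_prod_sub_one (conjSet (α ^ m)) (fun z => max 1 ‖z‖ - 1)
    (fun z => sub_nonneg.mpr (le_max_left _ _))
  simp only [add_sub_cancel] at h3
  calc ‖∑ z ∈ conjSet (α ^ m), (z - refl z)‖ ≤ ∑ z ∈ conjSet (α ^ m), ‖z - refl z‖ :=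
        norm_sum_le _ _
    _ ≤ ∑ z ∈ conjSet (α ^ m), 2 * (max 1 ‖z‖ - 1) :=
        Finset.sum_le_sum fun z _ => norm_sub_refl_le z
    _ = 2 * ∑ z ∈ conjSet (α ^ m), (max 1 ‖z‖ - 1) := by rw [Finset.mul_sum]
    _ ≤ 2 * 2 ^ m := by nlinarith

/-- the power sums are integers -/
lemma exists_int {β : K} (hβ : IsIntegral ℤ β) : ∃ t : ℤ, ∑ z ∈ conjSet β, z = (t : ℂ) := by
  refine ⟨-(minpoly ℤ β).nextCoeff, ?_⟩
  have h1 := congrArg Polynomial.nextCoeff (minpolyZ_map hβ)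
  rw [Polynomial.nextCoeff_map (RingHom.injective_int _), Polynomial.prod_X_sub_C_nextCoeff] at h1
  rw [eq_intCast] at h1
  push_cast
  rw [h1, neg_neg]

/-- the final estimate -/
lemma real_part {n U A r Mr c l lg δ D l1 l2 : ℝ} (hn1 : 16 ≤ n) (hU : 0 < U)
    (hl : 0 ≤ l) (hMr : 0 ≤ Mr) (hc : 0 ≤ c) (hlg : 3.4 ≤ lg)
    (hU2 : A ^ 2 ≤ c * U) (hδ3 : δ ≤ 1 / 16)
    (hmain : (1 - δ) * r ^ 2 ≤ 2 * (n * A) * (Mr * l * A) + l1 + l2)
    (e3 : l1 ≤ n * U) (e4 : l2 ≤ n * U * (5 / 4 * lg))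
    (_hr : 0 ≤ r) (hdiff : U ≤ r + D) (_hD0 : 0 ≤ D) (hD : D ^ 2 ≤ 2 * n * U) :
    U ≤ 9 / 2 * n * (c * Mr * l + lg) := by
  have hsq : U ^ 2 ≤ 2 * r ^ 2 + 2 * D ^ 2 := by
    have h1 : U ^ 2 ≤ (r + D) ^ 2 := pow_le_pow_left₀ hU.le hdiff 2
    nlinarith [sq_nonneg (r - D)]
  have h15 : 15 / 16 * r ^ 2 ≤ (1 - δ) * r ^ 2 :=
    mul_le_mul_of_nonneg_right (by linarith) (sq_nonneg r)
  have hkey : 15 / 16 * r ^ 2 ≤ 2 * (n * A) * (Mr * l * A) + n * U
      + n * U * (5 / 4 * lg) := by linarith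
  have hA3 : 2 * (n * A) * (Mr * l * A) ≤ 2 * n * (Mr * l) * (c * U) := by
    calc 2 * (n * A) * (Mr * l * A) = 2 * n * (Mr * l) * A ^ 2 := by ring
      _ ≤ _ := mul_le_mul_of_nonneg_left hU2 (by positivity)
  have hnU : 0 ≤ n * U := by positivity
  have hfin : U * U ≤ U * (9 / 2 * n * (c * Mr * l + lg)) := by
    have h1 : U * U ≤ 2 * (16 / 15 * (2 * n * (Mr * l) * (c * U) + n * U
      + n * U * (5 / 4 * lg))) + 4 * n * U := by
      have h0 : U * U = U ^ 2 := by ring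
      rw [h0]
      linarith
    refine h1.trans ?_
    have h2 : 0 ≤ n * U * (c * Mr * l) := by positivity
    have h3 : n * U * 3.4 ≤ n * U * lg := mul_le_mul_of_nonneg_left hlg hnU
    have e5 : 2 * (16 / 15 * (2 * n * (Mr * l) * (c * U) + n * U
      + n * U * (5 / 4 * lg))) + 4 * n * U = 64 / 15 * (n * U * (c * Mr * l))
      + 8 / 3 * (n * U * lg) + 92 / 15 * (n * U) := by ring
    have e6 : U * (9 / 2 * n * (c * Mr * l + lg)) =
      9 / 2 * (n * U * (c * Mr * l)) + 9 / 2 * (n * U * lg) := by ring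
    rw [e5, e6]
    linarith
  exact le_of_mul_le_mul_left hfin hU

/-- one sign -/
theorem one_sign {α : K} (hα : IsIntegral ℤ α) (h0 : α ≠ 0)
    (hroot : ∀ n : ℕ, 0 < n → α ^ n ≠ 1) (J : Finset ℕ) (M : ℕ) (hJ : ∀ m ∈ J, 1 ≤ m ∧ m ≤ M)
    (hM : 1 ≤ M) (hn : 16 ^ M ≤ finrank ℚ K) (hl : lam α ≤ Real.log 2) (s : ℕ → ℝ) (ε : ℝ)
    (hε : |ε| = 1) (hs : ∀ m, ∑ z ∈ conjSet (α ^ m), z = (s m : ℂ)) :
    ∑ m ∈ J, (max 0 (ε * s m)) ^ 2 ≤
      9 / 2 * finrank ℚ K * (J.card * M * lam α + Real.log (2 * finrank ℚ K)) := by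
  have hn16 : (16:ℝ) ^ M ≤ finrank ℚ K := by exact_mod_cast hn
  obtain ⟨n, hnn⟩ : ∃ n : ℝ, n = (finrank ℚ K : ℝ) := ⟨_, rfl⟩
  obtain ⟨a, ha⟩ : ∃ a : ℕ → ℝ, a = fun m => max 0 (ε * s m) := ⟨_, rfl⟩
  have ha0 : ∀ m, 0 ≤ a m := fun m => by rw [ha]; exact le_max_left _ _
  have hmain0 := fun t ht0 ht1 => ineqW hα h0 hroot J M (fun m hm => (hJ m hm).2) a ha0 (t := t)
    ht0 ht1 2
  have hdiff0 : ∀ m ∈ J, ‖∑ z ∈ conjSet (α ^ m), z - ∑ z ∈ conjSet (α ^ m), refl z‖ ≤ 2 * 2 ^ M := by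
    intro m hm
    refine (diff_le α m hl).trans ?_
    exact mul_le_mul_of_nonneg_left (pow_le_pow_right₀ (by norm_num) (hJ m hm).2) (by norm_num)
  have hl0 := lam_nonneg α
  rw [← hnn] at hn16 hmain0 ⊢
  have hgoal : ∑ m ∈ J, (max 0 (ε * s m)) ^ 2 = ∑ m ∈ J, a m ^ 2 := by rw [ha]
  rw [hgoal]
  clear hgoal hn
  obtain ⟨l, hll⟩ : ∃ l : ℝ, l = lam α := ⟨_, rfl⟩
  rw [← hll] at hl0 hmain0 ⊢
  obtain ⟨U, hU⟩ : ∃ U : ℝ, U = ∑ m ∈ J, a m ^ 2 := ⟨_, rfl⟩
  obtain ⟨A, hA⟩ : ∃ A : ℝ, A = ∑ m ∈ J, a m := ⟨_, rfl⟩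
  have hU0 : 0 ≤ U := by rw [hU]; exact Finset.sum_nonneg fun m _ => sq_nonneg _
  have hA0 : 0 ≤ A := by rw [hA]; exact Finset.sum_nonneg fun m _ => ha0 m
  have h16 : (16:ℝ) ≤ 16 ^ M := by
    calc (16:ℝ) = 16 ^ 1 := by norm_num
      _ ≤ 16 ^ M := pow_le_pow_right₀ (by norm_num) hM
  have hn1 : (16:ℝ) ≤ n := h16.trans hn16
  have hnpos : 0 < n := by linarith
  have hlog : 3.4 ≤ Real.log (2 * n) := by
    have h1 : Real.log 32 ≤ Real.log (2 * n) := Real.log_le_log (by norm_num) (by linarith)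
    have h2 : Real.log 32 = 5 * Real.log 2 := by
      rw [show (32:ℝ) = 2 ^ 5 by norm_num, Real.log_pow]; norm_num
    have := Real.log_two_gt_d9
    linarith
  have hU1 : U ≤ A ^ 2 := by
    rw [hU, hA]
    exact Finset.sum_sq_le_sq_sum_of_nonneg (fun m _ => ha0 m)
  have hU2 : A ^ 2 ≤ J.card * U := by
    rw [hU, hA]
    exact sq_sum_le_card_mul_sum_sq
  rw [← hU]
  rw [← hA, ← hU] at hmain0
  rcases eq_or_lt_of_le hU0 with hz | hUpos
  · rw [← hz]
    have h1 : 0 ≤ (J.card : ℝ) * M * l := mul_nonneg (mul_nonneg (Nat.cast_nonneg _) (Nat.cast_nonneg _)) hl0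
    have h2 : 0 ≤ (J.card : ℝ) * M * l + Real.log (2 * n) := by linarith
    exact mul_nonneg (by linarith) h2
  have hApos : 0 < A := by
    have hA2 : 0 < A ^ 2 := lt_of_lt_of_le hUpos hU1
    have hA3 : A ≠ 0 := fun h => by
      rw [h, zero_pow two_ne_zero] at hA2
      exact lt_irrefl _ hA2
    exact lt_of_le_of_ne hA0 (Ne.symm hA3)
  -- the number of exponents
  have hJ1 : (J.card : ℝ) ≤ M := by
    have : J ⊆ Finset.Icc 1 M := fun m hm => Finset.mem_Icc.mpr (hJ m hm)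
    have h := Finset.card_le_card this
    rw [Nat.card_Icc, Nat.add_sub_cancel] at h
    exact_mod_cast h
  have hJ0 : (1:ℝ) ≤ J.card := by
    have : J.Nonempty := by
      rw [Finset.nonempty_iff_ne_empty]
      rintro rfl
      rw [hU] at hUpos
      simp at hUpos
    exact_mod_cast this.card_pos
  have hM2 : (M:ℝ) ≤ 2 ^ M := by exact_mod_cast (Nat.lt_two_pow_self).le
  -- the parameter
  obtain ⟨δ, hδ⟩ : ∃ δ : ℝ, δ = U / (n * A ^ 2) := ⟨_, rfl⟩
  have hA2 : 0 < A ^ 2 := by positivity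
  have hδ1 : δ ≤ 1 / n := by
    rw [hδ, div_le_div_iff₀ (by positivity) hnpos]
    nlinarith
  have hcpos : 0 < (J.card : ℝ) := by linarith
  have hδ2 : 1 / (n * J.card) ≤ δ := by
    rw [hδ, div_le_div_iff₀ (by positivity) (by positivity)]
    nlinarith
  have hδpos : 0 < δ := by rw [hδ]; positivity
  have hδ3 : δ ≤ 1 / 16 := hδ1.trans (one_div_le_one_div_of_le (by norm_num) hn1)
  have hmain := hmain0 (1 - δ) (by linarith) (by linarith)
  rw [Finset.sum_range_succ, Finset.sum_range_one] at hmain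
  simp only [Nat.cast_zero, div_zero, zero_mul, zero_add, Nat.cast_one, div_one, pow_one] at hmain
  obtain ⟨R, hR⟩ : ∃ R : ℂ, R = ∑ m ∈ J, (a m : ℂ) * ∑ z ∈ conjSet (α ^ m), refl z := ⟨_, rfl⟩
  rw [← hR] at hmain
  -- the logarithms
  have e1 : Real.log (2 / (1 + (1 - δ))) ≤ δ := by
    have h1 : 2 / (1 + (1 - δ)) = 1 + δ / (2 - δ) := by
      have : (2 - δ) ≠ 0 := by linarith
      rw [show 1 + (1 - δ) = 2 - δ by ring]
      field_simp
      ring
    rw [h1]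
    have h2 : 0 < 1 + δ / (2 - δ) := by
      have : 0 < 2 - δ := by linarith
      positivity
    have h3 := Real.log_le_sub_one_of_pos h2
    have h4 : δ / (2 - δ) ≤ δ := by
      rw [div_le_iff₀ (by linarith)]
      nlinarith
    linarith
  have e2 : Real.log (1 / (1 - (1 - δ))) ≤ 5 / 4 * Real.log (2 * n) := by
    have h1 : 1 / (1 - (1 - δ)) ≤ n * J.card := by
      rw [show 1 - (1 - δ) = δ by ring, div_le_iff₀ hδpos]
      rw [div_le_iff₀ (by positivity)] at hδ2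
      linarith
    have h2 : Real.log (1 / (1 - (1 - δ))) ≤ Real.log (n * J.card) :=
      Real.log_le_log (by rw [show 1 - (1 - δ) = δ by ring]; positivity) h1
    refine h2.trans ?_
    rw [Real.log_mul hnpos.ne' hcpos.ne']
    have h3 : Real.log (J.card : ℝ) ≤ 1 / 4 * Real.log n := by
      have h4 : Real.log (J.card : ℝ) ≤ M * Real.log 2 := by
        rw [← Real.log_pow]
        exact Real.log_le_log hcpos (hJ1.trans hM2)
      have h5 : M * Real.log 16 ≤ Real.log n := by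
        rw [← Real.log_pow]
        exact Real.log_le_log (by positivity) hn16
      have h6 : Real.log 16 = 4 * Real.log 2 := by
        rw [show (16:ℝ) = 2 ^ 4 by norm_num, Real.log_pow]; norm_num
      rw [h6] at h5
      linarith
    have h7 : Real.log n ≤ Real.log (2 * n) := Real.log_le_log hnpos (by linarith)
    linarith
  have e3 : (n * A) ^ 2 * Real.log (2 / (1 + (1 - δ))) ≤ n * U := by
    calc (n * A) ^ 2 * Real.log (2 / (1 + (1 - δ))) ≤ (n * A) ^ 2 * δ :=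
          mul_le_mul_of_nonneg_left e1 (by positivity)
      _ = n * U := by rw [hδ]; field_simp
  have e4 : n * U * Real.log (1 / (1 - (1 - δ))) ≤ n * U * (5 / 4 * Real.log (2 * n)) :=
    mul_le_mul_of_nonneg_left e2 (by positivity)
  -- the difference between the power sums and the reflected ones
  have hdiff : U ≤ ‖R‖ + A * (2 * 2 ^ M) := by
    have h1 : (∑ m ∈ J, (a m : ℂ) * ∑ z ∈ conjSet (α ^ m), z) = ((ε⁻¹ * U : ℝ) : ℂ) := by
      have hε0 : ε ≠ 0 := by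
        rintro rfl
        norm_num at hε
      rw [hU, Finset.mul_sum]
      push_cast
      refine Finset.sum_congr rfl fun m _ => ?_
      rw [hs m]
      rw [ha]
      dsimp only
      rcases le_total (ε * s m) 0 with h | h
      · rw [max_eq_left h]; simp
      · rw [max_eq_right h]
        push_cast
        have : (ε : ℂ) ≠ 0 := by exact_mod_cast hε0
        field_simp
    have h2 : ‖(∑ m ∈ J, (a m : ℂ) * ∑ z ∈ conjSet (α ^ m), z)‖ = U := by
      rw [h1, Complex.norm_real, Real.norm_eq_abs, abs_mul, abs_inv, hε, inv_one, one_mul,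
        abs_of_nonneg hU0]
    have h3 : ‖(∑ m ∈ J, (a m : ℂ) * ∑ z ∈ conjSet (α ^ m), z) - R‖ ≤ A * (2 * 2 ^ M) := by
      rw [hR, ← Finset.sum_sub_distrib, hA, Finset.sum_mul]
      refine (norm_sum_le _ _).trans (Finset.sum_le_sum fun m hm => ?_)
      rw [← mul_sub, norm_mul, Complex.norm_real, Real.norm_of_nonneg (ha0 m)]
      exact mul_le_mul_of_nonneg_left (hdiff0 m hm) (ha0 m)
    have h4 := norm_sub_norm_le (∑ m ∈ J, (a m : ℂ) * ∑ z ∈ conjSet (α ^ m), z) R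
    rw [h2] at h4
    linarith
  have hD : (A * (2 * 2 ^ M)) ^ 2 ≤ 2 * n * U := by
    have h1 : (A * (2 * 2 ^ M)) ^ 2 = A ^ 2 * (4 * 4 ^ M) := by
      rw [mul_pow, mul_pow, ← pow_mul, mul_comm M 2, pow_mul]
      norm_num
    have h2 : A ^ 2 ≤ 2 ^ M * U := hU2.trans (mul_le_mul_of_nonneg_right (hJ1.trans hM2) hU0)
    have h3 : (2:ℝ) ^ M * 4 ^ M * 2 ≤ 16 ^ M := by
      rw [← mul_pow]
      have h4 : (16:ℝ) ^ M = (2 * 4) ^ M * 2 ^ M := by rw [← mul_pow]; norm_num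
      rw [h4]
      have h5 : (2:ℝ) ≤ 2 ^ M := by
        calc (2:ℝ) = 2 ^ 1 := by norm_num
          _ ≤ 2 ^ M := pow_le_pow_right₀ (by norm_num) hM
      exact mul_le_mul_of_nonneg_left h5 (by positivity)
    rw [h1]
    calc A ^ 2 * (4 * 4 ^ M) ≤ 2 ^ M * U * (4 * 4 ^ M) :=
          mul_le_mul_of_nonneg_right h2 (by positivity)
      _ = 2 * U * (2 ^ M * 4 ^ M * 2) := by ring
      _ ≤ 2 * U * n := mul_le_mul_of_nonneg_left (h3.trans hn16) (by positivity)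
      _ = 2 * n * U := by ring
  exact real_part hn1 hUpos hl0 (Nat.cast_nonneg M) hcpos.le hlog hU2 hδ3 hmain e3 e4
    (norm_nonneg R) hdiff (by positivity) hD

theorem sum_sq {α : K} (hα : IsIntegral ℤ α) (h0 : α ≠ 0)
    (hroot : ∀ n : ℕ, 0 < n → α ^ n ≠ 1) (J : Finset ℕ) (M : ℕ) (hJ : ∀ m ∈ J, 1 ≤ m ∧ m ≤ M)
    (hM : 1 ≤ M) (hn : 16 ^ M ≤ finrank ℚ K) (hl : lam α ≤ Real.log 2) :
    ∑ m ∈ J, ‖∑ z ∈ conjSet (α ^ m), z‖ ^ 2 ≤
      9 * finrank ℚ K * (J.card * M * lam α + Real.log (2 * finrank ℚ K)) := by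
  choose s hs using fun m : ℕ => exists_int (hα.pow m)
  have hs' : ∀ m, ∑ z ∈ conjSet (α ^ m), z = (((s m : ℤ) : ℝ) : ℂ) := fun m => by
    rw [hs m]; push_cast; rfl
  have h1 := one_sign hα h0 hroot J M hJ hM hn hl (fun m => (s m : ℝ)) 1 (by norm_num) hs'
  have h2 := one_sign hα h0 hroot J M hJ hM hn hl (fun m => (s m : ℝ)) (-1) (by norm_num) hs'
  have h3 : ∑ m ∈ J, ‖∑ z ∈ conjSet (α ^ m), z‖ ^ 2 =
      ∑ m ∈ J, (max 0 (1 * (s m : ℝ))) ^ 2 + ∑ m ∈ J, (max 0 (-1 * (s m : ℝ))) ^ 2 := by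
    rw [← Finset.sum_add_distrib]
    refine Finset.sum_congr rfl fun m _ => ?_
    rw [hs', Complex.norm_real, Real.norm_eq_abs, sq_abs]
    rcases le_total (s m : ℝ) 0 with h | h
    · rw [max_eq_left (by linarith), max_eq_right (by linarith)]; ring
    · rw [max_eq_right (by linarith), max_eq_left (by linarith)]; ring
  rw [h3]
  linarith

end Pool.Agent.Y145.LM
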