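import Mathlib
import Pool.Agent.H389R3.LP4
import Pool.Agent.Y145.LM.C

/-!
# Transfer to integer polynomials
-/

set_option autoImplicit false

open Finset Polynomial Module IntermediateField

namespace Pool.Agent.Y145.LM

open Pool.Agent.H388SL Pool.Agent.H389R3.LR

/-- the sum of the distinct `m`-th powers of the zeros of `f` -/
noncomputable def powerSum (f : ℤ[X]) (m : ℕ) : ℂ :=
  ∑ᶠ w ∈ {w : ℂ | ∃ z : ℂ, aeval z f = 0 ∧ w = z ^ m}, w

lemma powerSum_neg (f : ℤ[X]) (m : ℕ) : powerSum (-f) m = powerSum f m := by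
  unfold powerSum
  have h : {w : ℂ | ∃ z : ℂ, aeval z (-f) = 0 ∧ w = z ^ m} =
      {w : ℂ | ∃ z : ℂ, aeval z f = 0 ∧ w = z ^ m} := by
    ext w
    simp only [Set.mem_ofPred_eq, map_neg, neg_eq_zero]
  rw [h]

lemma irr_sum (f : ℤ[X]) (hf : Irreducible f) (hm : f.Monic)
    (hM : 1 < (f.map (Int.castRingHom ℂ)).mahlerMeasure)
    (hM2 : (f.map (Int.castRingHom ℂ)).mahlerMeasure < 2) (J : Finset ℕ) (k : ℕ)
    (hJ : ∀ m ∈ J, 1 ≤ m ∧ m ≤ k) (hk : 1 ≤ k) (hn : 16 ^ k ≤ f.natDegree) :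
    ∑ m ∈ J, ‖powerSum f m‖ ^ 2 ≤ 9 * f.natDegree *
      (J.card * k * Real.log (f.map (Int.castRingHom ℂ)).mahlerMeasure +
        Real.log (2 * f.natDegree)) := by
  classical
  have hdeg : f.natDegree ≠ 0 := by
    intro h
    have := hm.natDegree_eq_zero.mp h
    exact hf.not_isUnit (this ▸ isUnit_one)
  obtain ⟨z, hz⟩ := IsAlgClosed.exists_aeval_eq_zero ℂ f (by
    intro h
    exact hdeg (natDegree_eq_of_degree_eq_some h))
  have hzi : IsIntegral ℤ z := ⟨f, hm, by rw [← Polynomial.aeval_def]; exact hz⟩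
  have hzQ : IsIntegral ℚ z := hzi.tower_top
  have hmin : minpoly ℤ z = f := by
    have h1 := minpoly.isIntegrallyClosed_dvd hzi hz
    have h2 : Associated (minpoly ℤ z) f :=
      (minpoly.irreducible hzi).associated_of_dvd hf h1
    exact eq_of_monic_of_associated (minpoly.monic hzi) hm h2
  set L := adjoin ℚ {z} with hL
  have hfin : FiniteDimensional ℚ L := adjoin.finiteDimensional hzQ
  have : NumberField L := { to_charZero := inferInstance, to_finiteDimensional := hfin }
  set α : L := AdjoinSimple.gen ℚ z with hα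
  have hαz : algebraMap L ℂ α = z := AdjoinSimple.algebraMap_gen ℚ z
  have hαi : IsIntegral ℤ α := by
    rw [← hαz] at hzi
    exact (isIntegral_algebraMap_iff (algebraMap L ℂ).injective).mp hzi
  have hαc : CInj α := by
    intro σ τ h
    apply adjoin_algHom_ext ℚ (s := {z})
    intro x hx
    rw [Set.mem_singleton_iff] at hx
    subst hx
    exact h
  have hminα : minpoly ℤ α = f := by
    rw [← hmin, ← hαz]
    exact (minpoly.algebraMap_eq (algebraMap L ℂ).injective α).symm
  have hpmap : f.map (Int.castRingHom ℂ) = ∏ τ : L →ₐ[ℚ] ℂ, (X - C (τ α)) := by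
    rw [← minpoly_map_eq hαc, minpoly.isIntegrallyClosed_eq_field_fractions' ℚ hαi, hminα,
      Polynomial.map_map]
    rfl
  have hMM : Real.log (f.map (Int.castRingHom ℂ)).mahlerMeasure = lam α := by
    rw [hpmap]
    have h1 : (∏ τ : L →ₐ[ℚ] ℂ, (X - C (τ α))).mahlerMeasure = ∏ τ : L →ₐ[ℚ] ℂ, max 1 ‖τ α‖ := by
      rw [Finset.prod_eq_multiset_prod, prod_mahlerMeasure_eq_mahlerMeasure_prod, Multiset.map_map,
        Finset.prod_eq_multiset_prod]
      congr 1
      refine Multiset.map_congr rfl fun τ _ => ?_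
      rw [Function.comp_apply, mahlerMeasure_X_sub_C]
    rw [h1, Real.log_prod]
    · rfl
    · intro τ _
      have : (0:ℝ) < max 1 ‖τ α‖ := lt_of_lt_of_le one_pos (le_max_left _ _)
      exact this.ne'
  have hfr : finrank ℚ L = f.natDegree := by
    rw [hL, adjoin.finrank hzQ, minpoly.isIntegrallyClosed_eq_field_fractions' ℚ hzi, hmin]
    exact natDegree_map_eq_of_injective (algebraMap ℤ ℚ).injective_int f
  have hlampos : 0 < lam α := by
    rw [← hMM]; exact Real.log_pos hM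
  have hlam2 : lam α ≤ Real.log 2 := by
    rw [← hMM]; exact Real.log_le_log (by linarith) hM2.le
  have hα0 : α ≠ 0 := by
    intro h
    rw [h] at hlampos
    unfold lam at hlampos
    simp at hlampos
  have hαroot : ∀ n : ℕ, 0 < n → α ^ n ≠ 1 := by
    intro n hn h
    have h1 := lam_pow α n
    rw [h] at h1
    have h2 : lam (1 : L) = 0 := by unfold lam; simp
    rw [h2] at h1
    have h3 : (0:ℝ) < n := by exact_mod_cast hn
    have : 0 < (n:ℝ) * lam α := mul_pos h3 hlampos
    linarith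
  have hS : ∀ m : ℕ, powerSum f m = ∑ w ∈ conjSet (α ^ m), w := by
    intro m
    unfold powerSum
    have h1 : {w : ℂ | ∃ z : ℂ, aeval z f = 0 ∧ w = z ^ m} = ↑(conjSet (α ^ m)) := by
      ext w
      rw [Set.mem_ofPred_eq, Finset.mem_coe, mem_conjSet]
      have h2 : ∀ x : ℂ, aeval x f = 0 ↔ ∃ σ : L →ₐ[ℚ] ℂ, σ α = x := by
        intro x
        have h3 : aeval x f = (f.map (Int.castRingHom ℂ)).eval x := by
          rw [aeval_def, eval_map]; rfl
        rw [h3, hpmap, eval_prod, Finset.prod_eq_zero_iff]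
        constructor
        · rintro ⟨σ, _, hσ⟩
          refine ⟨σ, ?_⟩
          rw [eval_sub, eval_X, eval_C, sub_eq_zero] at hσ
          exact hσ.symm
        · rintro ⟨σ, hσ⟩
          refine ⟨σ, Finset.mem_univ _, ?_⟩
          rw [eval_sub, eval_X, eval_C, hσ, sub_self]
      constructor
      · rintro ⟨x, hx, rfl⟩
        obtain ⟨σ, hσ⟩ := (h2 x).mp hx
        exact ⟨σ, by rw [map_pow, hσ]⟩
      · rintro ⟨σ, hσ⟩
        exact ⟨σ α, (h2 _).mpr ⟨σ, rfl⟩, by rw [← hσ, map_pow]⟩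
    rw [h1, finsum_mem_coe_finset]
  have h := sum_sq hαi hα0 hαroot J k hJ hk (by rw [hfr]; exact hn) hlam2
  rw [hfr, ← hMM] at h
  simp_rw [hS]
  exact h

theorem main (f : ℤ[X]) (hf : Irreducible f)
    (hM : 1 < (f.map (Int.castRingHom ℂ)).mahlerMeasure) (J : Finset ℕ) (k : ℕ)
    (hJ0 : J.Nonempty) (hJ : ∀ m ∈ J, 1 ≤ m ∧ m ≤ k) (hn : 16 ^ k ≤ f.natDegree) :
    min 2 (Real.exp ((∑ m ∈ J, ‖powerSum f m‖ ^ 2 -
      9 * f.natDegree * Real.log (2 * f.natDegree)) / (9 * f.natDegree * J.card * k))) ≤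
      (f.map (Int.castRingHom ℂ)).mahlerMeasure := by
  rcases le_or_gt 2 (f.map (Int.castRingHom ℂ)).mahlerMeasure with h2 | h2
  · exact (min_le_left _ _).trans h2
  refine (min_le_right _ _).trans ?_
  have hk : 1 ≤ k := by
    obtain ⟨m, hm⟩ := hJ0
    exact (hJ m hm).1.trans (hJ m hm).2
  obtain ⟨hlc, _⟩ := Pool.Agent.H389R3.LP.units_of_lt_two f hf hM h2
  have key : ∀ g : ℤ[X], Irreducible g → g.Monic → 16 ^ k ≤ g.natDegree →
      1 < (g.map (Int.castRingHom ℂ)).mahlerMeasure →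
      (g.map (Int.castRingHom ℂ)).mahlerMeasure < 2 →
      Real.exp ((∑ m ∈ J, ‖powerSum g m‖ ^ 2 -
      9 * g.natDegree * Real.log (2 * g.natDegree)) / (9 * g.natDegree * J.card * k)) ≤
      (g.map (Int.castRingHom ℂ)).mahlerMeasure := by
    intro g hg hgm hgn hgM hgM2
    have h := irr_sum g hg hgm hgM hgM2 J k hJ hk hgn
    have hM0 : 0 < (g.map (Int.castRingHom ℂ)).mahlerMeasure := by linarith
    have hc : (0:ℝ) < J.card := by exact_mod_cast hJ0.card_pos
    have hk' : (0:ℝ) < k := by exact_mod_cast hk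
    have hd : (0:ℝ) < g.natDegree := by
      have : 0 < g.natDegree := lt_of_lt_of_le (by positivity) hgn
      exact_mod_cast this
    rw [← Real.le_log_iff_exp_le hM0, div_le_iff₀ (by positivity)]
    nlinarith
  rcases (abs_eq (zero_le_one' ℤ)).mp hlc with h3 | h3
  · exact key f hf h3 hn hM h2
  · have hneg : ((-f).map (Int.castRingHom ℂ)).mahlerMeasure =
        (f.map (Int.castRingHom ℂ)).mahlerMeasure := MM_neg' f
    have hfn : Irreducible (-f) := by simpa using (irreducible_units_mul (-1 : ℤ[X]ˣ)).mpr hf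
    have h4 := key (-f) hfn (by rw [Monic, leadingCoeff_neg, h3, neg_neg])
      (by rw [natDegree_neg]; exact hn) (by rw [hneg]; exact hM) (by rw [hneg]; exact h2)
    rw [hneg, natDegree_neg] at h4
    simp_rw [powerSum_neg] at h4
    exact h4

end Pool.Agent.Y145.LM
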